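import Mathlib

/-!
# Project RW: 2-descent for `x (x - 5) (x + 5)`, the integral part
-/

set_option autoImplicit false

namespace Pool.Agent.Y726.RW

lemma sqfree_repr (n : ℤ) : ∃ (e : ℕ) (a : ℤ), Squarefree e ∧ n = n.sign * e * a ^ 2 := by
  obtain ⟨e, b, hb, he⟩ := Nat.sq_mul_squarefree n.natAbs
  refine ⟨e, b, he, ?_⟩
  have h1 : ((n.natAbs : ℕ) : ℤ) = (b : ℤ) ^ 2 * e := by rw [← hb]; push_cast; ring
  calc n = n.sign * n.natAbs := (Int.sign_mul_natAbs n).symm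
    _ = n.sign * ((b : ℤ) ^ 2 * e) := by rw [h1]
    _ = _ := by ring

lemma dvd_of_primes {n m : ℕ} (hn : Squarefree n) (hm : m ≠ 0)
    (h : ∀ p : ℕ, p.Prime → p ∣ n → p ∣ m) : n ∣ m := by
  have h1 : n.primeFactors ⊆ m.primeFactors := by
    intro p hp
    rw [Nat.mem_primeFactors] at hp ⊢
    exact ⟨hp.1, h p hp.1 hp.2.1, hm⟩
  calc n = ∏ p ∈ n.primeFactors, p := (Nat.prod_primeFactors_of_squarefree hn).symm
    _ ∣ ∏ p ∈ m.primeFactors, p := Finset.prod_dvd_prod_of_subset _ _ _ h1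
    _ ∣ m := Nat.prod_primeFactors_dvd m

lemma prime_two {e f : ℕ} (he : Squarefree e) (h : IsSquare (e * f)) {p : ℕ} (hp : p.Prime)
    (hpe : p ∣ e) : p ∣ f := by
  by_contra hf
  obtain ⟨k, hk⟩ := h
  have h1 : p ∣ k * k := hk ▸ (hpe.mul_right f)
  have h2 : p ∣ k := (hp.dvd_mul.1 h1).elim id id
  have h3 : p * p ∣ e * f := hk ▸ mul_dvd_mul h2 h2
  have h4 : Nat.Coprime (p * p) f :=
    Nat.Coprime.mul_left ((Nat.Prime.coprime_iff_not_dvd hp).2 hf)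
      ((Nat.Prime.coprime_iff_not_dvd hp).2 hf)
  have h5 : p * p ∣ e := h4.dvd_of_dvd_mul_right h3
  exact hp.one_lt.ne' (Nat.isUnit_iff.1 (he p h5))

lemma sq_mod8 (p : ℤ) : (p ^ 2 % 8 = 1 ∧ p % 2 = 1) ∨ ((p ^ 2 % 8 = 0 ∨ p ^ 2 % 8 = 4) ∧ p % 2 = 0) := by
  have h : p % 8 = 0 ∨ p % 8 = 1 ∨ p % 8 = 2 ∨ p % 8 = 3 ∨ p % 8 = 4 ∨ p % 8 = 5 ∨ p % 8 = 6 ∨
      p % 8 = 7 := by omega
  have h2 : p ^ 2 % 8 = (p % 8) * (p % 8) % 8 := by rw [sq, Int.mul_emod]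
  rcases h with h | h | h | h | h | h | h | h <;> rw [h] at h2 <;> omega

lemma impI {p q r s : ℤ} (h1 : p ^ 2 + q ^ 2 = 5 * r ^ 2) (h2 : p ^ 2 - q ^ 2 = s ^ 2) :
    p % 2 = 0 ∧ q % 2 = 0 := by
  have a1 := sq_mod8 p
  have a2 := sq_mod8 q
  have a3 := sq_mod8 r
  have a4 := sq_mod8 s
  generalize p ^ 2 = P at *
  generalize q ^ 2 = Q at *
  generalize r ^ 2 = R at *
  generalize s ^ 2 = S at *
  omega

lemma impII {p q r s : ℤ} (h1 : p ^ 2 + q ^ 2 = r ^ 2) (h2 : p ^ 2 - q ^ 2 = 5 * s ^ 2) :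
    p % 2 = 0 ∧ q % 2 = 0 := by
  have a1 := sq_mod8 p
  have a2 := sq_mod8 q
  have a3 := sq_mod8 r
  have a4 := sq_mod8 s
  generalize p ^ 2 = P at *
  generalize q ^ 2 = Q at *
  generalize r ^ 2 = R at *
  generalize s ^ 2 = S at *
  omega

lemma sq_mod5 (p : ℤ) : (p ^ 2 % 5 = 0 ∧ p % 5 = 0) ∨
    ((p ^ 2 % 5 = 1 ∨ p ^ 2 % 5 = 4) ∧ p % 5 ≠ 0) := by
  have h : p % 5 = 0 ∨ p % 5 = 1 ∨ p % 5 = 2 ∨ p % 5 = 3 ∨ p % 5 = 4 := by omega
  have h2 : p ^ 2 % 5 = (p % 5) * (p % 5) % 5 := by rw [sq, Int.mul_emod]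
  rcases h with h | h | h | h | h <;> rw [h] at h2 <;> omega

lemma not_both {X D p : ℤ} (h : IsCoprime X D) (hp : 1 < p) (h1 : p ∣ X) (h2 : p ∣ D) : False := by
  have h3 := h.isUnit_of_dvd' h1 h2
  rw [Int.isUnit_iff] at h3
  omega

/-- the excluded case `(1, 2, 2)` -/
lemma ex1 {X D a c s : ℤ} (hcop : IsCoprime X D) (hs : s = 1 ∨ s = -1) (h1 : X = s * a ^ 2)
    (h3 : X + 5 * D ^ 2 = 2 * c ^ 2) : False := by
  have b1 := sq_mod5 a
  have b3 := sq_mod5 c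
  have e : s * a ^ 2 + 5 * D ^ 2 = 2 * c ^ 2 := by rw [← h1]; exact h3
  have ha : a % 5 = 0 ∧ c % 5 = 0 := by
    rcases hs with rfl | rfl
    · generalize a ^ 2 = A at *
      generalize c ^ 2 = C at *
      generalize D ^ 2 = DD at *
      omega
    · generalize a ^ 2 = A at *
      generalize c ^ 2 = C at *
      generalize D ^ 2 = DD at *
      omega
  obtain ⟨a', ha'⟩ := Int.dvd_of_emod_eq_zero ha.1
  obtain ⟨c', hc'⟩ := Int.dvd_of_emod_eq_zero ha.2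
  subst ha' hc'
  have hD : D ^ 2 = 5 * (2 * c' ^ 2 - s * a' ^ 2) := by linarith
  have hD' : (5 : ℤ) ∣ D :=
    Int.Prime.dvd_pow' (by norm_num : Nat.Prime 5) (Dvd.intro _ hD.symm)
  exact not_both hcop (by norm_num : (1 : ℤ) < 5) ⟨s * (5 * a' ^ 2), by rw [h1]; ring⟩ hD'

/-- the excluded case `(1, 10, 10)` -/
lemma ex2 {X D a c s : ℤ} (hcop : IsCoprime X D) (hs : s = 1 ∨ s = -1) (h1 : X = s * a ^ 2)
    (h3 : X + 5 * D ^ 2 = 10 * c ^ 2) : False := by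
  have b1 := sq_mod5 a
  have e : s * a ^ 2 + 5 * D ^ 2 = 10 * c ^ 2 := by rw [← h1]; exact h3
  have ha : a % 5 = 0 := by
    rcases hs with rfl | rfl
    · generalize a ^ 2 = A at *
      generalize c ^ 2 = C at *
      generalize D ^ 2 = DD at *
      omega
    · generalize a ^ 2 = A at *
      generalize c ^ 2 = C at *
      generalize D ^ 2 = DD at *
      omega
  obtain ⟨a', ha'⟩ := Int.dvd_of_emod_eq_zero ha
  subst ha'
  have hD : D ^ 2 = 2 * c ^ 2 - 5 * (s * a' ^ 2) := by linarith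
  have b2 := sq_mod5 D
  have b3 := sq_mod5 c
  have hD' : D % 5 = 0 := by
    generalize s * a' ^ 2 = A at *
    generalize c ^ 2 = C at *
    generalize D ^ 2 = DD at *
    omega
  exact not_both hcop (by norm_num : (1 : ℤ) < 5) ⟨s * (5 * a' ^ 2), by rw [h1]; ring⟩
    (Int.dvd_of_emod_eq_zero hD')

lemma five_dvd {c z : ℤ} (h : c ^ 2 = 5 * z) : ∃ c', c = 5 * c' :=
  Int.Prime.dvd_pow' (by norm_num : Nat.Prime 5) (Dvd.intro _ h.symm)

/-- the excluded case `(5, 5, 1)` -/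
lemma ex3 {X D a b c s : ℤ} (hcop : IsCoprime X D) (hs : s = 1 ∨ s = -1) (h1 : X = 5 * s * a ^ 2)
    (h2 : X - 5 * D ^ 2 = 5 * s * b ^ 2) (h3 : X + 5 * D ^ 2 = c ^ 2) : False := by
  obtain ⟨c', rfl⟩ : ∃ c', c = 5 * c' := five_dvd (z := s * a ^ 2 + D ^ 2) (by linarith)
  have hev : a % 2 = 0 ∧ D % 2 = 0 := by
    rcases hs with rfl | rfl
    · exact impI (p := a) (q := D) (r := c') (s := b) (by linarith) (by linarith)
    · exact (impII (p := D) (q := a) (r := b) (s := c') (by linarith) (by linarith)).symm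
  exact not_both hcop (by norm_num : (1 : ℤ) < 2)
    (by rw [h1]; exact Dvd.dvd.mul_left (dvd_pow (Int.dvd_of_emod_eq_zero hev.1) two_ne_zero) _)
    (Int.dvd_of_emod_eq_zero hev.2)

/-- the excluded case `(5, 1, 5)` -/
lemma ex4 {X D a b c s : ℤ} (hcop : IsCoprime X D) (hs : s = 1 ∨ s = -1) (h1 : X = 5 * s * a ^ 2)
    (h2 : X - 5 * D ^ 2 = s * b ^ 2) (h3 : X + 5 * D ^ 2 = 5 * c ^ 2) : False := by
  have hb : ∃ b', b = 5 * b' := by
    rcases hs with rfl | rfl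
    · exact five_dvd (z := a ^ 2 - D ^ 2) (by linarith)
    · exact five_dvd (z := a ^ 2 + D ^ 2) (by linarith)
  obtain ⟨b', rfl⟩ := hb
  have hev : a % 2 = 0 ∧ D % 2 = 0 := by
    rcases hs with rfl | rfl
    · exact impII (p := a) (q := D) (r := c) (s := b') (by linarith) (by linarith)
    · exact (impI (p := D) (q := a) (r := b') (s := c) (by linarith) (by linarith)).symm
  exact not_both hcop (by norm_num : (1 : ℤ) < 2)
    (by rw [h1]; exact Dvd.dvd.mul_left (dvd_pow (Int.dvd_of_emod_eq_zero hev.1) two_ne_zero) _)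
    (Int.dvd_of_emod_eq_zero hev.2)

end Pool.Agent.Y726.RW
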