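import Pool.Agent.Y336.RW.Stm
import Pool.Agent.Y726.RW.Core

/-!
# Project RW: 2-descent for `x (x - 5) (x + 5)`
-/

set_option autoImplicit false

namespace Pool.Agent.Y726.RW

open Pool.Agent.Y336.RW

lemma nosq22 (m : ℕ) (h : m * m = 2 ∨ m * m = 5 ∨ m * m = 10 ∨ m * m = 20 ∨ m * m = 50 ∨
    m * m = 125 ∨ m * m = 250 ∨ m * m = 500) : False := by
  have h22 : m ≤ 22 := by
    by_contra hc
    have := Nat.mul_le_mul (not_le.1 hc) (not_le.1 hc)
    omega
  interval_cases m <;> omega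

/-- the integral form of the descent -/
lemma integral {X D Y : ℤ} (hD : D ≠ 0) (hcop : IsCoprime X D) (hY : Y ≠ 0)
    (h : X * (X - 5 * D ^ 2) * (X + 5 * D ^ 2) = Y ^ 2) :
    ∃ (s : ℤ) (e1 e2 e3 : ℕ) (a b c : ℤ), (s = 1 ∨ s = -1) ∧ X = s * e1 * a ^ 2 ∧
      X - 5 * D ^ 2 = s * e2 * b ^ 2 ∧ X + 5 * D ^ 2 = e3 * c ^ 2 ∧
      ((e1 = 1 ∧ e2 = 1 ∧ e3 = 1) ∨ (e1 = 1 ∧ e2 = 5 ∧ e3 = 5) ∨ (e1 = 5 ∧ e2 = 2 ∧ e3 = 10) ∨
        (e1 = 5 ∧ e2 = 10 ∧ e3 = 2)) := by
  have hD2 : 0 < D ^ 2 := by positivity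
  have hY2 : 0 < Y ^ 2 := by positivity
  have hX0 : X ≠ 0 := by rintro rfl; simp at h; exact hY (by
    have := h.symm; simpa using this)
  have hm0 : X - 5 * D ^ 2 ≠ 0 := by
    intro h0; rw [h0] at h; simp at h; exact hY (by have := h.symm; simpa using this)
  have hp0 : X + 5 * D ^ 2 ≠ 0 := by
    intro h0; rw [h0] at h; simp at h; exact hY (by have := h.symm; simpa using this)
  -- signs
  have hp : 0 < X + 5 * D ^ 2 := by
    by_contra hc
    have h1 : X + 5 * D ^ 2 < 0 := lt_of_le_of_ne (not_lt.1 hc) hp0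
    have h2 : X < 0 := by linarith
    have h3 : X - 5 * D ^ 2 < 0 := by linarith
    have h4 : 0 < X * (X - 5 * D ^ 2) := mul_pos_of_neg_of_neg h2 h3
    nlinarith [mul_neg_of_pos_of_neg h4 h1]
  have hxm : 0 < X * (X - 5 * D ^ 2) := by
    by_contra hc
    nlinarith [mul_nonpos_of_nonpos_of_nonneg (not_lt.1 hc) hp.le]
  have hsg : X.sign = (X - 5 * D ^ 2).sign := by
    rcases lt_or_gt_of_ne hX0 with h1 | h1
    · have h2 : X - 5 * D ^ 2 < 0 := by
        by_contra hc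
        nlinarith [mul_nonpos_of_nonpos_of_nonneg h1.le (not_lt.1 hc)]
      rw [Int.sign_eq_neg_one_of_neg h1, Int.sign_eq_neg_one_of_neg h2]
    · have h2 : 0 < X - 5 * D ^ 2 := by
        by_contra hc
        nlinarith [mul_nonpos_of_nonneg_of_nonpos h1.le (not_lt.1 hc)]
      rw [Int.sign_eq_one_of_pos h1, Int.sign_eq_one_of_pos h2]
  have hs : X.sign = 1 ∨ X.sign = -1 := by
    rcases lt_or_gt_of_ne hX0 with h1 | h1
    · right; exact Int.sign_eq_neg_one_of_neg h1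
    · left; exact Int.sign_eq_one_of_pos h1
  obtain ⟨e1, a, he1, h1⟩ := sqfree_repr X
  obtain ⟨e2, b, he2, h2⟩ := sqfree_repr (X - 5 * D ^ 2)
  obtain ⟨e3, c, he3, h3⟩ := sqfree_repr (X + 5 * D ^ 2)
  rw [← hsg] at h2
  rw [Int.sign_eq_one_of_pos hp, one_mul] at h3
  set s := X.sign with hsdef
  have hss : s * s = 1 := by rcases hs with h | h <;> rw [h] <;> norm_num
  have ha0 : a ≠ 0 := by rintro rfl; apply hX0; rw [h1]; ring
  have hb0 : b ≠ 0 := by rintro rfl; apply hm0; rw [h2]; ring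
  have hc0 : c ≠ 0 := by rintro rfl; apply hp0; rw [h3]; ring
  -- the product is a square
  have hprod : IsSquare (e1 * e2 * e3) := by
    rw [← Rat.isSquare_natCast_iff]
    refine ⟨(Y : ℚ) / (a * b * c), ?_⟩
    have e0 : ((e1 : ℤ) * e2 * e3) * (a * b * c) ^ 2 = Y ^ 2 := by
      have e00 : Y ^ 2 = (s * e1 * a ^ 2) * (s * e2 * b ^ 2) * (e3 * c ^ 2) := by
        rw [← h1, ← h2, ← h3, h]
      rw [e00]
      calc ((e1 : ℤ) * e2 * e3) * (a * b * c) ^ 2
          = 1 * (((e1 : ℤ) * e2 * e3) * (a * b * c) ^ 2) := by ring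
        _ = (s * s) * (((e1 : ℤ) * e2 * e3) * (a * b * c) ^ 2) := by rw [hss]
        _ = _ := by ring
    have e1' : ((e1 : ℚ) * e2 * e3) * (a * b * c) ^ 2 = (Y : ℚ) ^ 2 := by exact_mod_cast e0
    have haq : (a : ℚ) ≠ 0 := by exact_mod_cast ha0
    have hbq : (b : ℚ) ≠ 0 := by exact_mod_cast hb0
    have hcq : (c : ℚ) ≠ 0 := by exact_mod_cast hc0
    push_cast
    rw [div_mul_div_comm, eq_div_iff (by positivity), ← sq, ← sq, e1']
  -- divisibility of the factors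
  have d1 : ∀ p : ℕ, p ∣ e1 → (p : ℤ) ∣ X := fun p hp => by
    rw [h1]
    exact ((Int.natCast_dvd_natCast.2 hp).mul_left s).mul_right _
  have d2 : ∀ p : ℕ, p ∣ e2 → (p : ℤ) ∣ X - 5 * D ^ 2 := fun p hp => by
    rw [h2]
    exact ((Int.natCast_dvd_natCast.2 hp).mul_left s).mul_right _
  have d3 : ∀ p : ℕ, p ∣ e3 → (p : ℤ) ∣ X + 5 * D ^ 2 := fun p hp => by
    rw [h3]
    exact (Int.natCast_dvd_natCast.2 hp).mul_right _
  -- a prime dividing `X` does not divide `D`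
  have hXD : ∀ p : ℕ, p.Prime → (p : ℤ) ∣ X → ¬ (p : ℤ) ∣ D := fun p hp h1 h2 =>
    not_both hcop (by exact_mod_cast hp.one_lt) h1 h2
  have five : ∀ p : ℕ, p.Prime → (p : ℤ) ∣ 5 * D ^ 2 → (p : ℤ) ∣ X → p ∣ 5 := by
    intro p hp h1 h2
    have hpp := Nat.prime_iff_prime_int.1 hp
    rcases hpp.dvd_or_dvd h1 with h3 | h3
    · exact_mod_cast h3
    · exact absurd (hpp.dvd_of_dvd_pow h3) (hXD p hp h2)
  have k1 : e1 ∣ 5 := by
    refine dvd_of_primes he1 (by norm_num) fun p hp hpe => ?_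
    have q1 : p ∣ e2 * e3 := prime_two he1 (by rw [← mul_assoc]; exact hprod) hp hpe
    have qX := d1 p hpe
    rcases hp.dvd_mul.1 q1 with q2 | q2
    · refine five p hp ?_ qX
      have := dvd_sub qX (d2 p q2)
      rwa [show X - (X - 5 * D ^ 2) = 5 * D ^ 2 by ring] at this
    · refine five p hp ?_ qX
      have := dvd_sub (d3 p q2) qX
      rwa [show X + 5 * D ^ 2 - X = 5 * D ^ 2 by ring] at this
  have ten : ∀ p : ℕ, p.Prime → (p : ℤ) ∣ X - 5 * D ^ 2 → (p : ℤ) ∣ X + 5 * D ^ 2 → p ∣ 10 := by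
    intro p hp q2 q3
    have hpp := Nat.prime_iff_prime_int.1 hp
    have q4 : (p : ℤ) ∣ 10 * D ^ 2 := by
      have := dvd_sub q3 q2
      rwa [show X + 5 * D ^ 2 - (X - 5 * D ^ 2) = 10 * D ^ 2 by ring] at this
    rcases hpp.dvd_or_dvd q4 with h3 | h3
    · exact_mod_cast h3
    · have h4 : (p : ℤ) ∣ X := by
        have := dvd_sub q3 (Dvd.dvd.mul_left h3 5)
        rwa [show X + 5 * D ^ 2 - 5 * D ^ 2 = X by ring] at this
      exact absurd (hpp.dvd_of_dvd_pow h3) (hXD p hp h4)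
  have k2 : e2 ∣ 10 := by
    refine dvd_of_primes he2 (by norm_num) fun p hp hpe => ?_
    have q1 : p ∣ e1 * e3 := prime_two he2 (by
      rw [show e2 * (e1 * e3) = e1 * e2 * e3 by ring]; exact hprod) hp hpe
    rcases hp.dvd_mul.1 q1 with q2 | q2
    · have q3 : p ∣ 5 := by
        refine five p hp ?_ (d1 p q2)
        have := dvd_sub (d1 p q2) (d2 p hpe)
        rwa [show X - (X - 5 * D ^ 2) = 5 * D ^ 2 by ring] at this
      exact q3.trans (by norm_num)
    · exact ten p hp (d2 p hpe) (d3 p q2)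
  have k3 : e3 ∣ 10 := by
    refine dvd_of_primes he3 (by norm_num) fun p hp hpe => ?_
    have q1 : p ∣ e1 * e2 := prime_two he3 (by
      rw [show e3 * (e1 * e2) = e1 * e2 * e3 by ring]; exact hprod) hp hpe
    rcases hp.dvd_mul.1 q1 with q2 | q2
    · have q3 : p ∣ 5 := by
        refine five p hp ?_ (d1 p q2)
        have := dvd_sub (d3 p hpe) (d1 p q2)
        rwa [show X + 5 * D ^ 2 - X = 5 * D ^ 2 by ring] at this
      exact q3.trans (by norm_num)
    · exact ten p hp (d2 p q2) (d3 p hpe)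
  -- the cases
  have v1 : e1 = 1 ∨ e1 = 5 := (Nat.dvd_prime (by norm_num)).1 k1
  have v2 : e2 = 1 ∨ e2 = 2 ∨ e2 = 5 ∨ e2 = 10 := by
    have := Nat.le_of_dvd (by norm_num) k2
    interval_cases e2 <;> first | omega | (exfalso; revert k2; decide)
  have v3 : e3 = 1 ∨ e3 = 2 ∨ e3 = 5 ∨ e3 = 10 := by
    have := Nat.le_of_dvd (by norm_num) k3
    interval_cases e3 <;> first | omega | (exfalso; revert k3; decide)
  have key : (e1 = 1 ∧ e2 = 1 ∧ e3 = 1) ∨ (e1 = 1 ∧ e2 = 5 ∧ e3 = 5) ∨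
      (e1 = 5 ∧ e2 = 2 ∧ e3 = 10) ∨ (e1 = 5 ∧ e2 = 10 ∧ e3 = 2) ∨
      (e1 = 1 ∧ e2 = 2 ∧ e3 = 2) ∨ (e1 = 1 ∧ e2 = 10 ∧ e3 = 10) ∨
      (e1 = 5 ∧ e2 = 5 ∧ e3 = 1) ∨ (e1 = 5 ∧ e2 = 1 ∧ e3 = 5) := by
    rcases v1 with rfl | rfl <;> rcases v2 with rfl | rfl | rfl | rfl <;>
      rcases v3 with rfl | rfl | rfl | rfl <;>
      first
        | omega
        | (exfalso; obtain ⟨m, hm⟩ := hprod; exact nosq22 m (by omega))
  refine ⟨s, e1, e2, e3, a, b, c, hs, h1, h2, h3, ?_⟩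
  rcases key with hh | hh | hh | hh | ⟨g1, g2, g3⟩ | ⟨g1, g2, g3⟩ | ⟨g1, g2, g3⟩ | ⟨g1, g2, g3⟩
  · exact Or.inl hh
  · exact Or.inr (Or.inl hh)
  · exact Or.inr (Or.inr (Or.inl hh))
  · exact Or.inr (Or.inr (Or.inr hh))
  · exfalso
    rw [g1] at h1; rw [g3] at h3
    exact ex1 (a := a) (c := c) hcop hs (by rw [h1]; push_cast; ring) (by rw [h3]; push_cast; ring)
  · exfalso
    rw [g1] at h1; rw [g3] at h3
    exact ex2 (a := a) (c := c) hcop hs (by rw [h1]; push_cast; ring) (by rw [h3]; push_cast; ring)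
  · exfalso
    rw [g1] at h1; rw [g2] at h2; rw [g3] at h3
    exact ex3 (a := a) (b := b) (c := c) hcop hs (by rw [h1]; push_cast; ring) (by rw [h2]; push_cast; ring)
      (by rw [h3]; push_cast; ring)
  · exfalso
    rw [g1] at h1; rw [g2] at h2; rw [g3] at h3
    exact ex4 (a := a) (b := b) (c := c) hcop hs (by rw [h1]; push_cast; ring) (by rw [h2]; push_cast; ring)
      (by rw [h3]; push_cast; ring)

theorem desc : Desc := by
  intro x y hy hxy
  have hN0 : (0 : ℤ) < x.den := by exact_mod_cast x.den_pos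
  have hNq : ((x.den : ℤ) : ℚ) ≠ 0 := by exact_mod_cast hN0.ne'
  have hx : x = (x.num : ℚ) / ((x.den : ℤ) : ℚ) := by
    rw [Int.cast_natCast]; exact (Rat.num_div_den x).symm
  have hcop : IsCoprime x.num (x.den : ℤ) := by
    rw [Int.isCoprime_iff_gcd_eq_one]; exact x.reduced
  generalize x.num = X at hx hcop
  generalize (x.den : ℤ) = N at hx hcop hN0 hNq
  -- `N * Z` is a square
  set Z : ℤ := X * (X - 5 * N) * (X + 5 * N) with hZ
  have hsq : IsSquare (N * Z) := by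
    rw [← Rat.isSquare_intCast_iff]
    refine ⟨(N : ℚ) ^ 2 * y, ?_⟩
    have : (N : ℚ) ^ 2 * y * ((N : ℚ) ^ 2 * y) = (N : ℚ) ^ 4 * y ^ 2 := by ring
    rw [this, hxy, hx, hZ]
    push_cast
    field_simp
    ring
  obtain ⟨M, hM⟩ := hsq
  have hNZ : IsCoprime N Z := by
    have c1 : IsCoprime N X := hcop.symm
    have c2 : IsCoprime N (X - 5 * N) := by
      have := c1.add_mul_left_right (-5)
      rwa [show X + N * -5 = X - 5 * N by ring] at this
    have c3 : IsCoprime N (X + 5 * N) := by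
      have := c1.add_mul_left_right 5
      rwa [show X + N * 5 = X + 5 * N by ring] at this
    exact (c1.mul_right c2).mul_right c3
  have hyZ : (Z : ℚ) = N ^ 3 * y ^ 2 := by
    rw [hxy, hx, hZ]; push_cast; field_simp; ring
  have hy2 : 0 < y ^ 2 := by positivity
  have hZpos : 0 < Z := by
    have : (0 : ℚ) < Z := by
      rw [hyZ]
      have : (0 : ℚ) < N := by exact_mod_cast hN0
      positivity
    exact_mod_cast this
  obtain ⟨D, hD⟩ := Int.sq_of_isCoprime hNZ (by rw [hM, sq])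
  have hD' : N = D ^ 2 := by
    rcases hD with h | h
    · exact h
    · nlinarith [sq_nonneg D]
  obtain ⟨Y, hYY⟩ := Int.sq_of_isCoprime hNZ.symm (by rw [mul_comm, hM, sq])
  have hY' : Z = Y ^ 2 := by
    rcases hYY with h | h
    · exact h
    · nlinarith [sq_nonneg Y]
  have hD0 : D ≠ 0 := by rintro rfl; rw [hD'] at hN0; simp at hN0
  have hY0 : Y ≠ 0 := by rintro rfl; rw [hY'] at hZpos; simp at hZpos
  have hcop' : IsCoprime X D := by
    rw [hD'] at hcop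
    exact IsCoprime.of_mul_right_left (by rw [sq] at hcop; exact hcop)
  obtain ⟨s, e1, e2, e3, a, b, c, hs, h1, h2, h3, hcase⟩ := integral hD0 hcop' hY0
    (by rw [← hY', hZ, hD'])
  have hDq : (D : ℚ) ≠ 0 := by exact_mod_cast hD0
  have hNq' : (N : ℚ) = (D : ℚ) ^ 2 := by rw [hD']; push_cast; ring
  rw [hNq'] at hx
  have q1 : x = s * e1 * a ^ 2 / D ^ 2 := by
    rw [hx]; congr 1; exact_mod_cast h1
  have q2 : x - 5 = s * e2 * b ^ 2 / D ^ 2 := by
    have h2' : (X : ℚ) - 5 * D ^ 2 = s * e2 * b ^ 2 := by exact_mod_cast h2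
    rw [← h2', hx]; field_simp
  have q3 : x + 5 = e3 * c ^ 2 / D ^ 2 := by
    have h3' : (X : ℚ) + 5 * D ^ 2 = e3 * c ^ 2 := by exact_mod_cast h3
    rw [← h3', hx]; field_simp
  have hssq : (s : ℚ) * s = 1 := by rcases hs with h | h <;> rw [h] <;> norm_num
  have r1 : IsSquare (x * (s * e1)) := by
    refine ⟨s * (e1 * a / D), ?_⟩
    rw [q1]; field_simp
  have r2 : IsSquare ((x - 5) * (s * e2)) := by
    refine ⟨s * (e2 * b / D), ?_⟩
    rw [q2]; field_simp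
  have r3 : IsSquare ((x + 5) * (e3 : ℚ)) := by
    refine ⟨e3 * c / D, ?_⟩
    rw [q3]; field_simp
  have fin : ∀ cc : ℚ × ℚ × ℚ, cc ∈ classes → (s * e1 : ℚ) = cc.1 → (s * e2 : ℚ) = cc.2.1 →
      (e3 : ℚ) = cc.2.2 → ∃ c ∈ classes, IsSquare (x * c.1) ∧ IsSquare ((x - 5) * c.2.1) ∧
        IsSquare ((x + 5) * c.2.2) := by
    intro cc hcc g1 g2 g3
    exact ⟨cc, hcc, by rw [← g1]; exact r1, by rw [← g2]; exact r2, by rw [← g3]; exact r3⟩
  rcases hs with rfl | rfl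
  · rcases hcase with ⟨g1, g2, g3⟩ | ⟨g1, g2, g3⟩ | ⟨g1, g2, g3⟩ | ⟨g1, g2, g3⟩
    · exact fin (1, 1, 1) (by simp [classes]) (by rw [g1]; norm_num) (by rw [g2]; norm_num)
        (by rw [g3]; norm_num)
    · exact fin (1, 5, 5) (by simp [classes]) (by rw [g1]; norm_num) (by rw [g2]; norm_num)
        (by rw [g3]; norm_num)
    · exact fin (5, 2, 10) (by simp [classes]) (by rw [g1]; norm_num) (by rw [g2]; norm_num)
        (by rw [g3]; norm_num)
    · exact fin (5, 10, 2) (by simp [classes]) (by rw [g1]; norm_num) (by rw [g2]; norm_num)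
        (by rw [g3]; norm_num)
  · rcases hcase with ⟨g1, g2, g3⟩ | ⟨g1, g2, g3⟩ | ⟨g1, g2, g3⟩ | ⟨g1, g2, g3⟩
    · exact fin (-1, -1, 1) (by simp [classes]) (by rw [g1]; norm_num) (by rw [g2]; norm_num)
        (by rw [g3]; norm_num)
    · exact fin (-1, -5, 5) (by simp [classes]) (by rw [g1]; norm_num) (by rw [g2]; norm_num)
        (by rw [g3]; norm_num)
    · exact fin (-5, -2, 10) (by simp [classes]) (by rw [g1]; norm_num) (by rw [g2]; norm_num)
        (by rw [g3]; norm_num)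
    · exact fin (-5, -10, 2) (by simp [classes]) (by rw [g1]; norm_num) (by rw [g2]; norm_num)
        (by rw [g3]; norm_num)

end Pool.Agent.Y726.RW
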